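import Mathlib

/-!
# MP_cf29c0_an : an implication-form ISS Lyapunov function that is not in dissipative form

State space `ℓ²`, system `x' = -x + u` (a linear system with bounded operators, inputs: bounded
strongly measurable functions `ℝ₊ → ℓ²` with the supremum norm), and
`V(x) = ‖x‖ + min 1 (max 0 (‖x‖ - 1) / w(x))`, `w(x) = (1/3) sup_j |x_j| / (j+1)`.
-/

namespace Pool.Agent.Results.MP_cf29c0_an.ImplicationNotDissipative

open MeasureTheory Set Filter Topology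
open scoped NNReal

/-! ### Definitions -/

/-- The class `PD`. -/
def PD (γ : ℝ≥0 → ℝ≥0) : Prop := Continuous γ ∧ γ 0 = 0 ∧ ∀ r, 0 < r → 0 < γ r

/-- The class `K`. -/
def ClassK (γ : ℝ≥0 → ℝ≥0) : Prop := PD γ ∧ StrictMono γ

/-- The class `K_∞`. -/
def ClassKInf (γ : ℝ≥0 → ℝ≥0) : Prop := ClassK γ ∧ ∀ C : ℝ≥0, ∃ r, C ≤ γ r

/-- A (forward complete) control system `Σ = (X, 𝒰, φ)`: `inputs` is the vector space `𝒰` of
input functions and `inorm` its norm. -/
structure ControlSystem (X U : Type) [NormedAddCommGroup X] [NormedSpace ℝ X]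
    [NormedAddCommGroup U] [NormedSpace ℝ U] where
  inputs : Submodule ℝ (ℝ≥0 → U)
  inorm : inputs → ℝ≥0
  inorm_eq_zero : ∀ u, inorm u = 0 → u = 0
  inorm_smul : ∀ (c : ℝ) (u), (inorm (c • u) : ℝ) = |c| * inorm u
  inorm_add_le : ∀ u v, inorm (u + v) ≤ inorm u + inorm v
  shift_mem : ∀ u ∈ inputs, ∀ τ : ℝ≥0, (fun s => u (s + τ)) ∈ inputs
  shift_le : ∀ (u : inputs) (τ : ℝ≥0),
    inorm ⟨fun s => (u : ℝ≥0 → U) (s + τ), shift_mem u u.2 τ⟩ ≤ inorm u
  concat_mem : ∀ u ∈ inputs, ∀ v ∈ inputs, ∀ t : ℝ≥0, 0 < t →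
    (fun s => if s ≤ t then u s else v (s - t)) ∈ inputs
  φ : ℝ≥0 → X → inputs → X
  φ_zero : ∀ x u, φ 0 x u = x
  φ_causal : ∀ t x (u v : inputs), (∀ s ≤ t, (u : ℝ≥0 → U) s = (v : ℝ≥0 → U) s) →
    φ t x u = φ t x v
  φ_continuous : ∀ x u, Continuous fun t => φ t x u
  φ_cocycle : ∀ t h x (u : inputs),
    φ h (φ t x u) ⟨fun s => (u : ℝ≥0 → U) (s + t), shift_mem u u.2 t⟩ = φ (t + h) x u

variable {X U : Type} [NormedAddCommGroup X] [NormedSpace ℝ X]
    [NormedAddCommGroup U] [NormedSpace ℝ U]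

/-- `V̇_u(x) = limsup_{t → 0+} (V(φ(t,x,u)) - V(x)) / t`, an extended real number. -/
noncomputable def Vdot (S : ControlSystem X U) (V : X → ℝ) (x : X) (u : S.inputs) : EReal :=
  limsup (fun t : ℝ≥0 => (((V (S.φ t x u) - V x) / (t : ℝ) : ℝ) : EReal)) (𝓝[>] 0)

/-- `V` is an ISS Lyapunov function in dissipative form with the given comparison functions. -/
def Dissipative (S : ControlSystem X U) (V : X → ℝ) (ψ₁ ψ₂ α σ : ℝ≥0 → ℝ≥0) : Prop :=
  (∀ x, (ψ₁ ‖x‖₊ : ℝ) ≤ V x ∧ V x ≤ ψ₂ ‖x‖₊) ∧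
  ∀ x u, Vdot S V x u ≤ ((-(α ‖x‖₊ : ℝ) + σ (S.inorm u) : ℝ) : EReal)

/-- `V` is an ISS Lyapunov function in implication form with the given comparison functions. -/
def Implication (S : ControlSystem X U) (V : X → ℝ) (ψ₁ ψ₂ χ α : ℝ≥0 → ℝ≥0) : Prop :=
  (∀ x, (ψ₁ ‖x‖₊ : ℝ) ≤ V x ∧ V x ≤ ψ₂ ‖x‖₊) ∧
  ∀ x u, χ (S.inorm u) ≤ ‖x‖₊ → Vdot S V x u ≤ ((-(α ‖x‖₊ : ℝ) : ℝ) : EReal)

/-- `V` is an ISS Lyapunov function in implication form for `S`. -/
def IsImplication (S : ControlSystem X U) (V : X → ℝ) : Prop :=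
  ∃ ψ₁ ψ₂ χ α : ℝ≥0 → ℝ≥0, ClassKInf ψ₁ ∧ ClassKInf ψ₂ ∧ ClassKInf χ ∧ PD α ∧
    Implication S V ψ₁ ψ₂ χ α

/-- The same with a decay rate `α` of class `K_∞`. -/
def IsStrongImplication (S : ControlSystem X U) (V : X → ℝ) : Prop :=
  ∃ ψ₁ ψ₂ χ α : ℝ≥0 → ℝ≥0, ClassKInf ψ₁ ∧ ClassKInf ψ₂ ∧ ClassKInf χ ∧ ClassKInf α ∧
    Implication S V ψ₁ ψ₂ χ α

/-- `V` is an ISS Lyapunov function in dissipative form for `S`. -/
def IsDissipative (S : ControlSystem X U) (V : X → ℝ) : Prop :=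
  ∃ ψ₁ ψ₂ α σ : ℝ≥0 → ℝ≥0, ClassKInf ψ₁ ∧ ClassKInf ψ₂ ∧ ClassKInf α ∧ ClassK σ ∧
    Dissipative S V ψ₁ ψ₂ α σ

/-- `V̇_u(x)` is unbounded above over `‖x‖ = 1`, `‖u‖ = 3`. -/
def UnboundedRate (S : ControlSystem X U) (V : X → ℝ) : Prop :=
  ∀ C : ℝ, ∃ x u, ‖x‖ = 1 ∧ S.inorm u = 3 ∧ (C : EReal) ≤ Vdot S V x u

/-! ### The system `x' = -x + u` on a Banach space -/

section system

variable (E : Type) [NormedAddCommGroup E] [NormedSpace ℝ E] [CompleteSpace E]

/-- Bounded strongly measurable inputs. -/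
def bddInputs : Submodule ℝ (ℝ≥0 → E) where
  carrier := {u | StronglyMeasurable u ∧ ∃ C : ℝ≥0, ∀ s, ‖u s‖₊ ≤ C}
  add_mem' := by
    rintro u v ⟨hu, C, hC⟩ ⟨hv, D, hD⟩
    exact ⟨hu.add hv, C + D, fun s => (nnnorm_add_le _ _).trans (add_le_add (hC s) (hD s))⟩
  zero_mem' := ⟨stronglyMeasurable_zero, 0, fun s => by simp⟩
  smul_mem' := by
    rintro c u ⟨hu, C, hC⟩
    refine ⟨hu.const_smul c, ‖c‖₊ * C, fun s => ?_⟩
    rw [Pi.smul_apply, nnnorm_smul]
    exact mul_le_mul_right (hC s) _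

variable {E}

lemma bdd (u : bddInputs E) : BddAbove (range fun s => ‖(u : ℝ≥0 → E) s‖₊) := by
  obtain ⟨C, hC⟩ := u.2.2
  exact ⟨C, by rintro _ ⟨s, rfl⟩; exact hC s⟩

/-- the solution map -/
noncomputable def flow (t : ℝ≥0) (x : E) (u : ℝ≥0 → E) : E :=
  Real.exp (-(t : ℝ)) • (x + ∫ s in (0 : ℝ)..t, Real.exp s • u s.toNNReal)

lemma integrable_aux (u : bddInputs E) (a b : ℝ) :
    IntervalIntegrable (fun s => Real.exp s • (u : ℝ≥0 → E) s.toNNReal) volume a b := by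
  obtain ⟨C, hC⟩ := u.2.2
  have hm : StronglyMeasurable fun s : ℝ => (u : ℝ≥0 → E) s.toNNReal :=
    u.2.1.comp_measurable measurable_real_toNNReal
  have h1 : IntervalIntegrable (fun s : ℝ => (u : ℝ≥0 → E) s.toNNReal) volume a b := by
    rw [intervalIntegrable_iff]
    refine Measure.integrableOn_of_bounded (M := C) ?_ hm.aestronglyMeasurable ?_
    · rw [uIoc, Real.volume_Ioc]; exact ENNReal.ofReal_ne_top
    · exact Filter.Eventually.of_forall fun s => by exact_mod_cast hC _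
  exact h1.continuousOn_smul Real.continuous_exp.continuousOn

/-- The control system `x' = -x + u`. -/
noncomputable def sys : ControlSystem E E where
  inputs := bddInputs E
  inorm u := ⨆ s, ‖(u : ℝ≥0 → E) s‖₊
  inorm_eq_zero u h := by
    ext s
    have h1 : ‖(u : ℝ≥0 → E) s‖₊ ≤ 0 := by
      rw [← h]; exact le_ciSup (bdd u) s
    simpa using h1
  inorm_smul c u := by
    have : (⨆ s, ‖((c • u : bddInputs E) : ℝ≥0 → E) s‖₊) =
        ‖c‖₊ * ⨆ s, ‖(u : ℝ≥0 → E) s‖₊ := by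
      rw [NNReal.mul_iSup]
      congr 1
      funext s
      show ‖c • (u : ℝ≥0 → E) s‖₊ = _
      rw [nnnorm_smul]
    rw [this]
    push_cast
    rfl
  inorm_add_le u v := by
    apply ciSup_le
    intro s
    show ‖(u : ℝ≥0 → E) s + (v : ℝ≥0 → E) s‖₊ ≤ _
    exact (nnnorm_add_le _ _).trans (add_le_add (le_ciSup (bdd u) s) (le_ciSup (bdd v) s))
  shift_mem u hu τ := by
    obtain ⟨hm, C, hC⟩ := hu
    exact ⟨hm.comp_measurable (measurable_id.add_const τ), C, fun s => hC _⟩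
  shift_le u τ := by
    apply ciSup_le
    intro s
    exact le_ciSup (bdd u) (s + τ)
  concat_mem u hu v hv t _ := by
    obtain ⟨hm, C, hC⟩ := hu
    obtain ⟨hm', D, hD⟩ := hv
    refine ⟨StronglyMeasurable.ite measurableSet_Iic hm
      (hm'.comp_measurable (measurable_id.sub_const t)), max C D, fun s => ?_⟩
    show ‖if s ≤ t then u s else v (s - t)‖₊ ≤ _
    split_ifs
    · exact (hC _).trans (le_max_left _ _)
    · exact (hD _).trans (le_max_right _ _)
  φ t x u := flow t x u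
  φ_zero x u := by simp [flow]
  φ_causal t x u v h := by
    unfold flow
    congr 2
    apply intervalIntegral.integral_congr
    intro s hs
    rw [uIcc_of_le (NNReal.coe_nonneg t)] at hs
    show Real.exp s • (u : ℝ≥0 → E) s.toNNReal = Real.exp s • (v : ℝ≥0 → E) s.toNNReal
    rw [h]
    rw [← NNReal.coe_le_coe, Real.coe_toNNReal _ hs.1]
    exact hs.2
  φ_continuous x u := by
    unfold flow
    have h1 : Continuous fun t : ℝ => ∫ s in (0 : ℝ)..t, Real.exp s • (u : ℝ≥0 → E) s.toNNReal :=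
      intervalIntegral.continuous_primitive (fun a b => integrable_aux u a b) 0
    have h2 : Continuous fun t : ℝ≥0 => (t : ℝ) := NNReal.continuous_coe
    exact (Real.continuous_exp.comp h2.neg).smul (continuous_const.add (h1.comp h2))
  φ_cocycle t h x u := by
    unfold flow
    have e1 : ∫ s in (0 : ℝ)..h, Real.exp s • (u : ℝ≥0 → E) (s.toNNReal + t) =
        Real.exp (-(t : ℝ)) • ∫ s in (t : ℝ)..(t + h : ℝ),
          Real.exp s • (u : ℝ≥0 → E) s.toNNReal := by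
      have e2 := intervalIntegral.integral_comp_add_right (a := (0 : ℝ)) (b := (h : ℝ))
        (fun s : ℝ => Real.exp s • (u : ℝ≥0 → E) s.toNNReal) (t : ℝ)
      rw [zero_add, add_comm (h : ℝ) (t : ℝ)] at e2
      rw [← e2, ← intervalIntegral.integral_smul]
      apply intervalIntegral.integral_congr
      intro s hs
      rw [uIcc_of_le (NNReal.coe_nonneg h)] at hs
      show Real.exp s • (u : ℝ≥0 → E) (s.toNNReal + t) =
        Real.exp (-(t : ℝ)) • Real.exp (s + t) • (u : ℝ≥0 → E) (s + t).toNNReal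
      have e6 : (s + (t : ℝ)).toNNReal = s.toNNReal + t := by
        rw [Real.toNNReal_add hs.1 (NNReal.coe_nonneg t), Real.toNNReal_coe]
      rw [smul_smul, ← Real.exp_add, e6]
      congr 2
      ring
    have e3 : ∫ s in (0 : ℝ)..(t + h : ℝ), Real.exp s • (u : ℝ≥0 → E) s.toNNReal =
        (∫ s in (0 : ℝ)..t, Real.exp s • (u : ℝ≥0 → E) s.toNNReal) +
        ∫ s in (t : ℝ)..(t + h : ℝ), Real.exp s • (u : ℝ≥0 → E) s.toNNReal :=
      (intervalIntegral.integral_add_adjacent_intervals (integrable_aux u _ _)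
        (integrable_aux u _ _)).symm
    show Real.exp (-(h : ℝ)) • (Real.exp (-(t : ℝ)) • (x + _) +
      ∫ s in (0 : ℝ)..h, Real.exp s • (u : ℝ≥0 → E) (s.toNNReal + t)) = _
    rw [e1, ← smul_add, smul_smul, ← Real.exp_add]
    have e4 : (-(h : ℝ) + -(t : ℝ)) = -((t + h : ℝ≥0) : ℝ) := by push_cast; ring
    rw [e4]
    congr 1
    have e5 : (((t + h : ℝ≥0) : ℝ)) = (t : ℝ) + h := by push_cast; ring
    rw [e5, e3]
    abel

end system

/-! ### The Lyapunov function on `ℓ²` -/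

/-- The Hilbert space `ℓ²`. -/
abbrev H := lp (fun _ : ℕ => ℝ) 2

/-- `w(x) = (1/3) sup_j |x_j| / (j+1)`. -/
noncomputable def w (x : H) : ℝ := (1 / 3) * ⨆ j : ℕ, |x j| / (j + 1)

lemma coord_le (x : H) (j : ℕ) : |x j| / (j + 1) ≤ ‖x‖ := by
  have h1 : ‖x j‖ ≤ ‖x‖ := lp.norm_apply_le_norm (by norm_num) x j
  rw [Real.norm_eq_abs] at h1
  have h2 : |x j| / (j + 1) ≤ |x j| := div_le_self (abs_nonneg _) (by
    have : (0 : ℝ) ≤ j := Nat.cast_nonneg j
    linarith)
  exact h2.trans h1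

lemma bdd_coord (x : H) : BddAbove (range fun j : ℕ => |x j| / ((j : ℝ) + 1)) :=
  ⟨‖x‖, by rintro _ ⟨j, rfl⟩; exact coord_le x j⟩

lemma w_lip (x y : H) : w x ≤ w y + (1 / 3) * ‖x - y‖ := by
  unfold w
  have h1 : (⨆ j : ℕ, |x j| / ((j : ℝ) + 1)) ≤ (⨆ j : ℕ, |y j| / ((j : ℝ) + 1)) + ‖x - y‖ := by
    apply ciSup_le
    intro j
    have h2 := coord_le (x - y) j
    have h3 : |x j| ≤ |y j| + |(x - y) j| := by
      have : x j = y j + (x - y) j := by
        show x j = y j + (x j - y j)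
        ring
      calc |x j| = |y j + (x - y) j| := by rw [← this]
        _ ≤ _ := abs_add_le _ _
    have hj : (0 : ℝ) < (j : ℝ) + 1 := by positivity
    calc |x j| / ((j : ℝ) + 1) ≤ (|y j| + |(x - y) j|) / ((j : ℝ) + 1) :=
          div_le_div_of_nonneg_right h3 hj.le
      _ = |y j| / ((j : ℝ) + 1) + |(x - y) j| / ((j : ℝ) + 1) := add_div _ _ _
      _ ≤ _ := add_le_add (le_ciSup (bdd_coord y) j) h2
  linarith

lemma w_nonneg (x : H) : 0 ≤ w x := by
  unfold w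
  have : 0 ≤ ⨆ j : ℕ, |x j| / ((j : ℝ) + 1) := Real.iSup_nonneg fun j => by positivity
  positivity

lemma w_pos (x : H) (hx : x ≠ 0) : 0 < w x := by
  unfold w
  have h1 : ∃ j, x j ≠ 0 := by
    by_contra hcon
    push Not at hcon
    apply hx
    ext j
    exact hcon j
  obtain ⟨j, hj⟩ := h1
  have h2 : 0 < |x j| / ((j : ℝ) + 1) := by positivity
  have h3 := le_ciSup (bdd_coord x) j
  have : 0 < ⨆ j : ℕ, |x j| / ((j : ℝ) + 1) := lt_of_lt_of_le h2 h3
  positivity

lemma w_cont : Continuous w := by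
  have h : LipschitzWith 1 w := by
    apply LipschitzWith.of_le_add
    intro x y
    have := w_lip x y
    rw [dist_eq_norm]
    have := norm_nonneg (x - y)
    linarith
  exact h.continuous

/-- The Lyapunov function. -/
noncomputable def V (x : H) : ℝ := ‖x‖ + min 1 (max 0 (‖x‖ - 1) / w x)

lemma V_cont : Continuous V := by
  rw [continuous_iff_continuousAt]
  intro x
  by_cases hx : ‖x‖ < 1
  · have h1 : V =ᶠ[𝓝 x] fun y => ‖y‖ := by
      have h2 : ∀ᶠ y in 𝓝 x, ‖y‖ < 1 :=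
        continuous_norm.continuousAt.eventually (gt_mem_nhds hx)
      filter_upwards [h2] with y hy
      unfold V
      rw [max_eq_left (by linarith), zero_div, min_eq_right zero_le_one, add_zero]
    exact (continuousAt_congr h1).2 continuous_norm.continuousAt
  · have hx0 : x ≠ 0 := by
      intro h0
      rw [h0, norm_zero] at hx
      exact hx one_pos
    have hw := w_pos x hx0
    have h1 : ContinuousAt (fun y : H => max 0 (‖y‖ - 1) / w y) x :=
      ContinuousAt.div (Continuous.continuousAt (by fun_prop)) w_cont.continuousAt hw.ne'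
    exact continuous_norm.continuousAt.add (continuousAt_const.min h1)

lemma V_ge (x : H) : ‖x‖ ≤ V x := by
  unfold V
  have h1 : 0 ≤ max 0 (‖x‖ - 1) / w x := div_nonneg (le_max_left _ _) (w_nonneg x)
  have : 0 ≤ min 1 (max 0 (‖x‖ - 1) / w x) := le_min zero_le_one h1
  linarith

lemma V_le (x : H) : V x ≤ 2 * ‖x‖ := by
  unfold V
  by_cases hx : ‖x‖ ≤ 1
  · rw [max_eq_left (by linarith), zero_div, min_eq_right zero_le_one]
    have := norm_nonneg x
    linarith
  · have := min_le_left 1 (max 0 (‖x‖ - 1) / w x)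
    linarith

/-- The key estimate. -/
lemma V_decrease (x y : H) (h : ℝ) (h0 : 0 ≤ h)
    (hy : ‖y‖ ≤ ‖x‖ - (1 / 2) * h * ‖x‖) (hxy : ‖y - x‖ ≤ (3 / 2) * h * ‖x‖) :
    V y ≤ V x - (1 / 2) * h * ‖x‖ := by
  have hx0 := norm_nonneg x
  suffices hs : min 1 (max 0 (‖y‖ - 1) / w y) ≤ min 1 (max 0 (‖x‖ - 1) / w x) by
    unfold V; linarith
  apply le_min (min_le_left _ _)
  by_cases hy1 : ‖y‖ ≤ 1
  · rw [max_eq_left (by linarith : ‖y‖ - 1 ≤ 0), zero_div, min_eq_right zero_le_one]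
    exact div_nonneg (le_max_left _ _) (w_nonneg x)
  · push Not at hy1
    have hx1 : 1 < ‖x‖ := by
      have : 0 ≤ (1 / 2) * h * ‖x‖ := by positivity
      linarith
    have hy0 : y ≠ 0 := by
      intro h0; rw [h0, norm_zero] at hy1; linarith
    have hxne : x ≠ 0 := by
      intro h0; rw [h0, norm_zero] at hx1; linarith
    have hwx := w_pos x hxne
    have hwy := w_pos y hy0
    rw [max_eq_right (by linarith : 0 ≤ ‖y‖ - 1), max_eq_right (by linarith : 0 ≤ ‖x‖ - 1)]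
    by_cases hbig : 1 ≤ (‖x‖ - 1) / w x
    · exact (min_le_left _ _).trans hbig
    · push Not at hbig
      refine (min_le_right _ _).trans ?_
      rw [div_lt_one hwx] at hbig
      rw [div_le_div_iff₀ hwy hwx]
      have h2 := w_lip x y
      have h3 : ‖x - y‖ ≤ (3 / 2) * h * ‖x‖ := by rw [norm_sub_rev]; exact hxy
      have h4 : w x - (1 / 2) * h * ‖x‖ ≤ w y := by linarith
      have h5 : (‖y‖ - 1) * w x ≤ (‖x‖ - 1 - (1 / 2) * h * ‖x‖) * w x :=
        mul_le_mul_of_nonneg_right (by linarith) hwx.le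
      have h6 : (‖x‖ - 1) * (w x - (1 / 2) * h * ‖x‖) ≤ (‖x‖ - 1) * w y :=
        mul_le_mul_of_nonneg_left h4 (by linarith)
      have h7 : 0 ≤ h * ‖x‖ := by positivity
      have h8 : 0 ≤ (h * ‖x‖) * (w x - (‖x‖ - 1)) := mul_nonneg h7 (by linarith)
      nlinarith

/-! ### The flow estimates -/

lemma norm_integral_le (u : bddInputs H) (t : ℝ≥0) :
    ‖∫ s in (0 : ℝ)..t, Real.exp s • (u : ℝ≥0 → H) s.toNNReal‖ ≤
      (Real.exp t - 1) * ((sys (E := H)).inorm u : ℝ) := by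
  have h1 : ∀ s : ℝ, ‖(u : ℝ≥0 → H) s.toNNReal‖ ≤ ((sys (E := H)).inorm u : ℝ) := fun s => by
    have := le_ciSup (bdd u) s.toNNReal
    exact_mod_cast this
  calc ‖∫ s in (0 : ℝ)..t, Real.exp s • (u : ℝ≥0 → H) s.toNNReal‖
      ≤ ∫ s in (0 : ℝ)..t, Real.exp s * ((sys (E := H)).inorm u : ℝ) := by
        apply intervalIntegral.norm_integral_le_of_norm_le (NNReal.coe_nonneg t)
        · refine Filter.Eventually.of_forall fun s _ => ?_
          rw [norm_smul, Real.norm_eq_abs, abs_of_pos (Real.exp_pos s)]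
          exact mul_le_mul_of_nonneg_left (h1 s) (Real.exp_pos s).le
        · exact (Real.continuous_exp.mul continuous_const).intervalIntegrable _ _
    _ = _ := by
        rw [intervalIntegral.integral_mul_const, integral_exp, Real.exp_zero]

lemma flow_bounds (x : H) (u : bddInputs H) (t : ℝ≥0) (hu : 2 * (sys (E := H)).inorm u ≤ ‖x‖₊) :
    ‖flow t x u‖ ≤ ‖x‖ - (1 / 2) * (1 - Real.exp (-(t : ℝ))) * ‖x‖ ∧
    ‖flow t x u - x‖ ≤ (3 / 2) * (1 - Real.exp (-(t : ℝ))) * ‖x‖ := by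
  set I := ∫ s in (0 : ℝ)..t, Real.exp s • (u : ℝ≥0 → H) s.toNNReal with hI
  set N : ℝ := ((sys (E := H)).inorm u : ℝ) with hN
  have hNx : 2 * N ≤ ‖x‖ := by
    have : ((2 * (sys (E := H)).inorm u : ℝ≥0) : ℝ) ≤ ‖x‖ := by exact_mod_cast hu
    push_cast at this
    exact this
  have h1 : ‖I‖ ≤ (Real.exp t - 1) * N := norm_integral_le u t
  have hep := Real.exp_pos (-(t : ℝ))
  have hmul : Real.exp (-(t : ℝ)) * Real.exp t = 1 := by rw [← Real.exp_add]; simp
  have h2 : Real.exp (-(t : ℝ)) * ‖I‖ ≤ (1 - Real.exp (-(t : ℝ))) * N := by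
    have h3 := mul_le_mul_of_nonneg_left h1 hep.le
    calc _ ≤ _ := h3
      _ = (Real.exp (-(t : ℝ)) * Real.exp t - Real.exp (-(t : ℝ))) * N := by ring
      _ = _ := by rw [hmul]
  have hle : Real.exp (-(t : ℝ)) ≤ 1 := by
    rw [← Real.exp_zero]
    exact Real.exp_le_exp.2 (by have := NNReal.coe_nonneg t; linarith)
  have h4 : (1 - Real.exp (-(t : ℝ))) * N ≤ (1 - Real.exp (-(t : ℝ))) * (‖x‖ / 2) :=
    mul_le_mul_of_nonneg_left (by linarith) (by linarith)
  have hflow : flow t x (u : ℝ≥0 → H) = Real.exp (-(t : ℝ)) • x + Real.exp (-(t : ℝ)) • I := by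
    unfold flow; rw [smul_add]
  constructor
  · rw [hflow]
    calc _ ≤ ‖Real.exp (-(t : ℝ)) • x‖ + ‖Real.exp (-(t : ℝ)) • I‖ := norm_add_le _ _
      _ = Real.exp (-(t : ℝ)) * ‖x‖ + Real.exp (-(t : ℝ)) * ‖I‖ := by
          rw [norm_smul, norm_smul, Real.norm_eq_abs, abs_of_pos hep]
      _ ≤ _ := by linarith
  · have e : flow t x (u : ℝ≥0 → H) - x =
        (-(1 - Real.exp (-(t : ℝ)))) • x + Real.exp (-(t : ℝ)) • I := by
      rw [hflow, neg_smul, sub_smul, one_smul]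
      abel
    rw [e]
    calc _ ≤ ‖(-(1 - Real.exp (-(t : ℝ)))) • x‖ + ‖Real.exp (-(t : ℝ)) • I‖ := norm_add_le _ _
      _ = (1 - Real.exp (-(t : ℝ))) * ‖x‖ + Real.exp (-(t : ℝ)) * ‖I‖ := by
          rw [norm_smul, norm_smul, norm_neg, Real.norm_eq_abs, Real.norm_eq_abs, abs_of_pos hep,
            abs_of_nonneg (by linarith)]
      _ ≤ _ := by linarith

lemma tendsto_rate : Tendsto (fun t : ℝ≥0 => (1 - Real.exp (-(t : ℝ))) / (t : ℝ)) (𝓝[>] 0)
    (𝓝 1) := by
  have h1 : HasDerivAt (fun t : ℝ => -Real.exp (-t)) 1 0 := by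
    have h0 : HasDerivAt (fun t : ℝ => -t) (-1) 0 := hasDerivAt_neg 0
    have h2 : HasDerivAt (fun t : ℝ => -Real.exp (-t)) _ 0 := h0.exp.neg
    exact h2.congr_deriv (by simp)
  have h2 := h1.tendsto_slope_zero_right
  have h3 : Tendsto (fun t : ℝ≥0 => (t : ℝ)) (𝓝[>] 0) (𝓝[>] 0) := by
    apply tendsto_nhdsWithin_of_tendsto_nhds_of_eventually_within _
      ((NNReal.continuous_coe.tendsto 0).mono_left nhdsWithin_le_nhds)
    filter_upwards [self_mem_nhdsWithin] with t ht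
    exact_mod_cast ht
  refine (h2.comp h3).congr fun t => ?_
  simp only [Function.comp, zero_add, neg_zero, Real.exp_zero, smul_eq_mul]
  rw [inv_mul_eq_div]
  congr 1
  ring

/-- `V̇_u(x) ≤ -‖x‖/2` when `‖x‖ ≥ 2 ‖u‖`. -/
lemma Vdot_le (x : H) (u : bddInputs H) (hu : 2 * (sys (E := H)).inorm u ≤ ‖x‖₊) :
    Vdot (sys (E := H)) V x u ≤ ((-(‖x‖ / 2) : ℝ) : EReal) := by
  unfold Vdot
  have h1 : ∀ᶠ t : ℝ≥0 in 𝓝[>] 0,
      (((V ((sys (E := H)).φ t x u) - V x) / (t : ℝ) : ℝ) : EReal) ≤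
      ((-(1 / 2) * ‖x‖ * ((1 - Real.exp (-(t : ℝ))) / (t : ℝ)) : ℝ) : EReal) := by
    filter_upwards [self_mem_nhdsWithin] with t ht
    have ht0 : (0 : ℝ) < t := by exact_mod_cast ht
    rw [EReal.coe_le_coe_iff, div_le_iff₀ ht0]
    obtain ⟨h2, h3⟩ := flow_bounds x u t hu
    have hle : Real.exp (-(t : ℝ)) ≤ 1 := by
      rw [← Real.exp_zero]
      exact Real.exp_le_exp.2 (by linarith)
    have h4 := V_decrease x (flow t x u) (1 - Real.exp (-(t : ℝ))) (by linarith) h2 h3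
    have e : -(1 / 2) * ‖x‖ * ((1 - Real.exp (-(t : ℝ))) / (t : ℝ)) * (t : ℝ) =
        -((1 / 2) * (1 - Real.exp (-(t : ℝ))) * ‖x‖) := by
      field_simp
    rw [e]
    show V (flow t x u) - V x ≤ _
    linarith
  have h2 : Tendsto (fun t : ℝ≥0 =>
      ((-(1 / 2) * ‖x‖ * ((1 - Real.exp (-(t : ℝ))) / (t : ℝ)) : ℝ) : EReal)) (𝓝[>] 0)
      (𝓝 ((-(1 / 2) * ‖x‖ * 1 : ℝ) : EReal)) :=
    (continuous_coe_real_ereal.tendsto _).comp (tendsto_const_nhds.mul tendsto_rate)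
  have h3 : (𝓝[>] (0 : ℝ≥0)).NeBot := inferInstance
  calc _ ≤ limsup (fun t : ℝ≥0 =>
        ((-(1 / 2) * ‖x‖ * ((1 - Real.exp (-(t : ℝ))) / (t : ℝ)) : ℝ) : EReal)) (𝓝[>] 0) :=
        limsup_le_limsup h1
    _ = ((-(1 / 2) * ‖x‖ * 1 : ℝ) : EReal) := h2.limsup_eq
    _ = _ := by congr 1; ring

/-- the unit vectors -/
noncomputable def ev (j : ℕ) : H := lp.single 2 j (1 : ℝ)

lemma norm_smul_ev (a : ℝ) (j : ℕ) : ‖a • ev j‖ = |a| := by
  rw [norm_smul, Real.norm_eq_abs, ev, lp.norm_single (by norm_num), norm_one, mul_one]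

lemma w_smul_ev (a : ℝ) (j : ℕ) : w (a • ev j) = (1 / 3) * (|a| / (j + 1)) := by
  unfold w
  congr 1
  have hc : ∀ i : ℕ, |(a • ev j) i| / ((i : ℝ) + 1) = if i = j then |a| / ((j : ℝ) + 1) else 0 := by
    intro i
    show |a * (ev j) i| / _ = _
    unfold ev
    by_cases hij : i = j
    · subst hij
      rw [lp.single_apply_self, if_pos rfl, mul_one]
    · rw [lp.single_apply_ne _ _ _ hij, if_neg hij, mul_zero, abs_zero, zero_div]
  simp_rw [hc]
  apply le_antisymm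
  · apply ciSup_le
    intro i
    split_ifs
    · exact le_rfl
    · positivity
  · have hb : BddAbove (range fun i : ℕ => if i = j then |a| / ((j : ℝ) + 1) else 0) := by
      refine ⟨|a| / ((j : ℝ) + 1), ?_⟩
      rintro _ ⟨i, rfl⟩
      show (if i = j then |a| / ((j : ℝ) + 1) else 0) ≤ _
      split_ifs
      · exact le_rfl
      · positivity
    have := le_ciSup hb j
    rwa [if_pos rfl] at this

/-- the constant input `3 e_j` -/
noncomputable def uj (j : ℕ) : bddInputs H :=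
  ⟨fun _ => (3 : ℝ) • ev j, stronglyMeasurable_const, ⟨3, fun s => by
    have := norm_smul_ev 3 j
    rw [← NNReal.coe_le_coe, coe_nnnorm, this]
    norm_num⟩⟩

lemma inorm_uj (j : ℕ) : (sys (E := H)).inorm (uj j) = 3 := by
  show (⨆ s : ℝ≥0, ‖(3 : ℝ) • ev j‖₊) = 3
  rw [ciSup_const]
  ext
  rw [coe_nnnorm, norm_smul_ev]
  norm_num

lemma flow_uj (j : ℕ) (t : ℝ≥0) :
    flow t (ev j) (uj j : ℝ≥0 → H) = (1 + 2 * (1 - Real.exp (-(t : ℝ)))) • ev j := by
  unfold flow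
  have h1 : ∫ s in (0 : ℝ)..t, Real.exp s • ((uj j : bddInputs H) : ℝ≥0 → H) s.toNNReal =
      (Real.exp t - 1) • (3 : ℝ) • ev j := by
    show ∫ s in (0 : ℝ)..t, Real.exp s • (3 : ℝ) • ev j = _
    rw [intervalIntegral.integral_smul_const, integral_exp, Real.exp_zero]
  rw [h1, smul_add, smul_smul, smul_smul, ← add_smul]
  congr 1
  have hmul : Real.exp (-(t : ℝ)) * Real.exp t = 1 := by rw [← Real.exp_add]; simp
  linear_combination 3 * hmul

lemma V_smul_ev (a : ℝ) (ha : 1 ≤ a) (j : ℕ) :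
    V (a • ev j) = a + min 1 (3 * (j + 1) * ((a - 1) / a)) := by
  unfold V
  have ha0 : 0 < a := by linarith
  rw [norm_smul_ev, w_smul_ev, abs_of_pos ha0, max_eq_right (by linarith)]
  congr 2
  have : (j : ℝ) + 1 ≠ 0 := by positivity
  field_simp

/-- Along `u = 3 e_j` the derivative at `e_j` is at least `3 (j+1)`. -/
lemma le_Vdot (j : ℕ) : ((3 * (j + 1) : ℝ) : EReal) ≤
    Vdot (sys (E := H)) V (ev j) (uj j) := by
  unfold Vdot
  have hr := tendsto_rate
  -- for small `t` the quotient is at least `6 (j+1) h / (t (1 + 2h))`, `h = 1 - e^{-t}`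
  have hexp : Tendsto (fun t : ℝ≥0 => 1 - Real.exp (-(t : ℝ))) (𝓝[>] 0) (𝓝 0) := by
    have h1 : Continuous fun t : ℝ≥0 => 1 - Real.exp (-(t : ℝ)) := by fun_prop
    have h2 := h1.tendsto 0
    simp only [NNReal.coe_zero, neg_zero, Real.exp_zero, sub_self] at h2
    exact h2.mono_left nhdsWithin_le_nhds
  have hj : (0 : ℝ) < (j : ℝ) + 1 := by positivity
  have hsmall : ∀ᶠ t : ℝ≥0 in 𝓝[>] 0, 1 - Real.exp (-(t : ℝ)) < 1 / (6 * ((j : ℝ) + 1)) :=
    hexp.eventually (gt_mem_nhds (by positivity))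
  have hratio : ∀ᶠ t : ℝ≥0 in 𝓝[>] 0, 2 / 3 < (1 - Real.exp (-(t : ℝ))) / (t : ℝ) :=
    hr.eventually (lt_mem_nhds (by norm_num))
  have key : ∀ᶠ t : ℝ≥0 in 𝓝[>] 0, ((3 * (j + 1) : ℝ) : EReal) ≤
      (((V ((sys (E := H)).φ t (ev j) (uj j)) - V (ev j)) / (t : ℝ) : ℝ) : EReal) := by
    filter_upwards [self_mem_nhdsWithin, hsmall, hratio] with t ht hs hq
    have ht0 : (0 : ℝ) < t := by exact_mod_cast ht
    rw [EReal.coe_le_coe_iff, le_div_iff₀ ht0]
    show _ ≤ V (flow t (ev j) (uj j)) - V (ev j)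
    set h : ℝ := 1 - Real.exp (-(t : ℝ)) with hh
    have hh0 : 0 ≤ h := by
      have : Real.exp (-(t : ℝ)) ≤ 1 := by
        rw [← Real.exp_zero]
        exact Real.exp_le_exp.2 (by linarith)
      linarith
    have hV1 : V (ev j) = 1 := by
      have := V_smul_ev 1 le_rfl j
      rw [one_smul] at this
      rw [this]
      simp
    rw [flow_uj, ← hh, V_smul_ev _ (by linarith) j, hV1]
    have hmin : 3 * ((j : ℝ) + 1) * ((1 + 2 * h - 1) / (1 + 2 * h)) ≤ 1 := by
      rw [lt_div_iff₀ (by positivity)] at hs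
      rw [mul_div_assoc', div_le_one (by positivity)]
      nlinarith
    rw [min_eq_right hmin]
    have hth : (t : ℝ) * (2 / 3) < h := by
      rw [lt_div_iff₀ ht0] at hq
      linarith
    have h1le : h ≤ 1 / 6 := by
      have : 1 / (6 * ((j : ℝ) + 1)) ≤ 1 / 6 := by
        apply one_div_le_one_div_of_le (by norm_num)
        have : (0 : ℝ) ≤ j := Nat.cast_nonneg j
        linarith
      linarith
    have h3 : h * (3 / 2) ≤ (1 + 2 * h - 1) / (1 + 2 * h) := by
      rw [le_div_iff₀ (by positivity)]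
      nlinarith
    have h4 : 3 * ((j : ℝ) + 1) * (h * (3 / 2)) ≤
        3 * ((j : ℝ) + 1) * ((1 + 2 * h - 1) / (1 + 2 * h)) :=
      mul_le_mul_of_nonneg_left h3 (by positivity)
    have h5 : 3 * ((j : ℝ) + 1) * t ≤ 3 * ((j : ℝ) + 1) * (h * (3 / 2)) :=
      mul_le_mul_of_nonneg_left (by linarith) (by positivity)
    linarith
  have hne : (𝓝[>] (0 : ℝ≥0)).NeBot := inferInstance
  exact le_limsup_of_frequently_le key.frequently

lemma not_finiteDimensional : ¬ FiniteDimensional ℝ H := by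
  intro hfin
  let L : (ℕ →₀ ℝ) →ₗ[ℝ] H := Finsupp.linearCombination ℝ ev
  have hcoord : ∀ (f : ℕ →₀ ℝ) (i : ℕ), (L f) i = f i := by
    intro f i
    induction f using Finsupp.induction_linear with
    | zero => rw [map_zero]; rfl
    | add f g hf hg =>
      rw [map_add]
      show (L f) i + (L g) i = _
      rw [hf, hg]
      rfl
    | single j a =>
      show (Finsupp.linearCombination ℝ ev (Finsupp.single j a)) i = _
      rw [Finsupp.linearCombination_single]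
      show a * (ev j) i = _
      unfold ev
      by_cases hij : i = j
      · subst hij
        rw [lp.single_apply_self, Finsupp.single_eq_same, mul_one]
      · rw [lp.single_apply_ne _ _ _ hij, mul_zero, Finsupp.single_eq_of_ne hij]
  have hinj : Function.Injective L := by
    intro f g hfg
    ext i
    rw [← hcoord, ← hcoord, hfg]
  have h1 : Module.Finite ℝ (ℕ →₀ ℝ) := Module.Finite.of_injective L hinj
  have h2 : Finite ℕ := Module.Finite.finite_basis (Finsupp.basisSingleOne (R := ℝ) (ι := ℕ))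
  exact not_finite ℕ

lemma classKInf_mul (c : ℝ≥0) (hc : 0 < c) : ClassKInf fun r => c * r := by
  refine ⟨⟨⟨by fun_prop, by simp, fun r hr => by positivity⟩, fun a b hab => ?_⟩, fun C => ?_⟩
  · exact mul_lt_mul_of_pos_left hab hc
  · refine ⟨C / c, le_of_eq ?_⟩
    show C = c * (C / c)
    field_simp

lemma strong : IsStrongImplication (sys (E := H)) V := by
  refine ⟨fun r => 1 * r, fun r => 2 * r, fun r => 2 * r, fun r => (1 / 2) * r,
    classKInf_mul 1 one_pos, classKInf_mul 2 (by norm_num), classKInf_mul 2 (by norm_num),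
    classKInf_mul (1 / 2) (by norm_num), ?_, ?_⟩
  · intro x
    constructor
    · have := V_ge x
      push_cast
      rw [one_mul]
      exact this
    · have := V_le x
      push_cast
      exact this
  · intro x u hu
    refine (Vdot_le x u hu).trans (le_of_eq ?_)
    congr 1
    push_cast
    ring

/-- **Q1 is false.** On the (infinite-dimensional) Hilbert space `ℓ²` there is a control system
and a continuous `V` that is an ISS Lyapunov function in implication form, even with decay rate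
`α` of class `K_∞`, but `V` is not an ISS Lyapunov function in dissipative form for any choice of
comparison functions (in fact `V̇_u(x)` is unbounded above on `‖x‖ = 1`, `‖u‖ = 3`). -/
theorem result : ¬ FiniteDimensional ℝ H ∧ ∃ (S : ControlSystem H H) (V : H → ℝ),
    Continuous V ∧ (∀ x, 0 ≤ V x) ∧ IsImplication S V ∧ IsStrongImplication S V ∧
    UnboundedRate S V ∧ ¬ IsDissipative S V := by
  refine ⟨not_finiteDimensional, sys (E := H), V, V_cont,
    fun x => (norm_nonneg x).trans (V_ge x), ?_, strong, ?_, ?_⟩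
  · obtain ⟨ψ₁, ψ₂, χ, α, h1, h2, h3, h4, h5⟩ := strong
    exact ⟨ψ₁, ψ₂, χ, α, h1, h2, h3, h4.1.1, h5⟩
  · intro C
    obtain ⟨j, hj⟩ := exists_nat_gt C
    refine ⟨ev j, uj j, ?_, inorm_uj j, le_trans ?_ (le_Vdot j)⟩
    · have := norm_smul_ev 1 j
      rwa [one_smul, abs_one] at this
    · rw [EReal.coe_le_coe_iff]
      have : (0 : ℝ) ≤ j := Nat.cast_nonneg j
      linarith
  · rintro ⟨ψ₁, ψ₂, α, σ, -, -, -, -, hdis⟩
    obtain ⟨j, hj⟩ := exists_nat_gt ((σ 3 : ℝ))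
    have h1 := (le_Vdot j).trans (hdis.2 (ev j) (uj j))
    rw [inorm_uj, EReal.coe_le_coe_iff] at h1
    have h2 : (0 : ℝ) ≤ (α ‖ev j‖₊ : ℝ) := NNReal.coe_nonneg _
    have h3 : (0 : ℝ) ≤ j := Nat.cast_nonneg j
    linarith

end Pool.Agent.Results.MP_cf29c0_an.ImplicationNotDissipative
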